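import Pool.Agent.V5helper88.X4

set_option autoImplicit false

/-!
# The Grothendieck period conjecture for cycles on abelian fourfolds of the first type

Let `A` be an abelian variety of dimension four over the field `ℚ̄` of algebraic numbers, such that
all endomorphisms of `A` are symmetric for the polarization. So `A` is isogenous to a product of
simple abelian varieties of type I (whose endomorphism algebra is a totally real field) which are
pairwise not isogenous; for example `End(A) = ℤ`.

**Theorem.** Every element of `H^4_Gr(A, ℚ(2)) = H^4_dR(A / ℚ̄) ∩ H^4(A, ℚ(2))` is a rational linear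
combination of products of two divisor classes. So `GPC ^ 2 (A)` is true, and therefore
`GPC ^ k (A)` is true for all `k` (for `k = 1` this is the theorem of Bost, which is proved in this
repository, `k = 0` and `k = 4` are trivial and `k = 3` follows from `k = 1`).

Nothing is assumed about periods: `AbVar` is the description of an abelian variety over `ℚ̄` by theta
functions (see `Pool/Agent/Y102/AVDefs.lean`, where it is explained why every abelian variety has
it), and the theorem of Schneider and Lang is proved in this repository. Nothing is assumed about
the Mumford-Tate group, and no classification of Lie algebras is used: if `End(A) = ℤ` then the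
Lie algebra `𝔥` of the group of periods is a priori an arbitrary irreducible subalgebra of `sp(8)`,
such as the principal `sl(2)`, the algebra `sl(2) × sl(2) × sl(2)` of Mumford, or `sp(8)`.

## The classes

The cohomology of `A` in degree four is the space of the alternating forms in four variables on
`H_1(A, ℚ)`, and `H^4_dR(A / ℚ̄)` is the exterior power of `H^1_dR(A / ℚ̄)`, which has the basis
`A.dR i`. So `H^4_Gr(A, ℚ(2))` is the space of the rational alternating forms `φ` such that
`(2 π i) ^ 2 φ` is a combination of products of elements of this basis, with algebraic coefficients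
(`IsGr`). The variables are indexed by `Fin 2 × Fin 2`. A rational alternating form in two
variables which is a Hodge class is the class of a divisor, with rational coefficients, by the
theorem of Lefschetz (`IsDivisorClass`).

## Proof

Let `𝔥` be the Lie algebra of the endomorphisms of `V = H_1(A, ℂ)` generated by the rational
endomorphisms which annihilate all de Rham-Betti classes. By the theorem of Schneider and Lang it
acts semisimply with the commutant `D = End(A) ⊗ ℂ`. Let `c` be an alternating form of degree four
which is annihilated by `𝔥` and orthogonal to all products of two invariant forms of degree two.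
Contraction with `c` is an `𝔥`-equivariant operator `T` on the space `S` of the symmetric
endomorphisms of `V`. It kills `D`. As the dimension of `V` is eight, `c` is primitive in the middle
degree, so `ω ∧ c = 0`; it follows that `tr(T(a) a ^ 2) = 0` for all `a ∈ S` with `tr(a) = 0`, that
is, `T` acts as a derivation which kills the trilinear form `tr(a b c)` on the traceless elements. If
`T ≠ 0` then there is a nonzero `𝔥`-stable space `U` of traceless elements, orthogonal to `D`, with
`tr(a b c) = 0` for all `a, b ∈ U` and all traceless `c ∈ S` (a generalized eigenspace for an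
eigenvalue of maximal absolute value, or the image of a power of `T`). Then `a b + b a` is a scalar
for all `a, b ∈ U`, and `V` is a module over a Clifford algebra, which is normalized by `𝔥`. The
spaces `U` of dimension `1, 2, 3, 6` are excluded by the product of the elements of an orthonormal
basis, which would be a skew endomorphism or an element of `D` orthogonal to `D`, those of
dimension at least `7` do not exist, and in the dimensions `4, 5` there would be a nonzero
isotropic subspace of `V` stable under `𝔥`. So `T = 0`, and `c = 0`.
-/

open Module Matrix Pool.Agent.Y102 Pool.Agent.W516.DR Pool.Agent.H204R3.GP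

noncomputable section

namespace Pool.Agent.V5helper88.Old.FourfoldClasses

variable (A : AbVar 4)

/-- `P` is an endomorphism of `A` (up to isogeny), in terms of its action on `H_1(A, ℚ)`: it respects
the de Rham structure. (By the theorem of Bost, which is proved in `Pool.Agent.Y102.AbVar.hodge_end`,
these are the elements of `End(A) ⊗ ℚ`.) -/
def IsEndo (P : Module.End ℚ A.H1) : Prop := IsDeRhamBettiEnd QBar A.dR P

/-- `P` is symmetric for the Riemann form of the polarization. -/
def IsSymmetric (P : Module.End ℚ A.H1) : Prop := ∀ u v, A.om (P u) v = A.om u (P v)

/-- `H^4(A, ℚ)`: the alternating forms in four variables in `H_1(A, ℚ)`. -/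
abbrev Cohomology : Type := A.H1 [⋀^Fin 2 × Fin 2]→ₗ[ℚ] ℚ

/-- The bilinear forms on `H_1(A, ℚ)`. -/
abbrev Bilinear : Type := A.H1 →ₗ[ℚ] A.H1 →ₗ[ℚ] ℚ

/-- `φ` is an element of `H^4_Gr(A, ℚ(2))`. -/
def IsGr (φ : Cohomology A) : Prop :=
  IsDeRhamBettiForm QBar A.dR (2 * Real.pi * Complex.I) 2 φ.toMultilinearMap

/-- The alternating bilinear form `B` is a Hodge class in `H^2(A) (1)`, that is (Lefschetz), a
rational multiple of the class of a divisor. -/
def IsDivisorClass (B : Bilinear A) : Prop :=
  IsHodgeBilinear (A.per : A.H1 →+ (Fin 4 → ℂ)) B ∧ ∀ u, B u u = 0

/-- The alternating form `ψ` is the product of the classes `B` and `C` of degree two. -/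
def IsProduct (B C : Bilinear A) (ψ : Cohomology A) : Prop :=
  ∀ v, ψ v = ∑ σ : Equiv.Perm (Fin 2 × Fin 2), ((Equiv.Perm.sign σ : ℤ) : ℚ) *
    (B (v (σ (0, 0))) (v (σ (0, 1))) * C (v (σ (1, 0))) (v (σ (1, 1))))

/-- `φ` is a linear combination of products of two divisor classes. -/
def IsSumOfProducts (φ : Cohomology A) : Prop :=
  φ ∈ Submodule.span ℚ {ψ | ∃ B C : Bilinear A, IsDivisorClass A B ∧ IsDivisorClass A C ∧
    IsProduct A B C ψ}

variable {A}

theorem divisor_of {P : Module.End ℚ A.H1} (hP : P ∈ A.EA)
    (hs : ∀ u v, A.om (P u) v = A.om u (P v)) : IsDivisorClass A (V5helper88.F4.omP P) := by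
  refine ⟨?_, fun u => ?_⟩
  · obtain ⟨P', hP'⟩ := A.endAlg.hodge P hP
    refine ⟨A.E.comp (P'.restrictScalars ℝ), fun x y => ?_, fun z hz u v => ?_⟩
    · have h1 : P' (A.per x) = A.per (P x) := hP' x
      rw [LinearMap.comp_apply, LinearMap.restrictScalars_apply]
      change A.E (P' (A.per x)) (A.per y) = _
      rw [h1, ← AbVar.om_coe, V5helper88.F4.omP_apply, hs]
    · rw [LinearMap.comp_apply, LinearMap.comp_apply, LinearMap.restrictScalars_apply,
        LinearMap.restrictScalars_apply, P'.map_smul, A.E_unit z hz]
  · rw [V5helper88.F4.omP_apply]
    have h1 := hs u u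
    rw [A.om_anti] at h1
    linarith

variable (A)

/-- **Theorem.** Let `A` be an abelian fourfold over `ℚ̄` all of whose endomorphisms are symmetric for
the polarization. Then every class in `H^4_Gr(A, ℚ(2))` is a linear combination of products of
divisor classes. -/
theorem result (h : ∀ P, IsEndo A P → IsSymmetric A P) (φ : Cohomology A) (hφ : IsGr A φ) :
    IsSumOfProducts A φ := by
  have h1 : φ ∈ V5helper88.F4.WA A := fun X hX => A.kills_of_mem hφ hX
  have h2 := V5helper88.F4.main_sym A (fun P hP => h P (A.mem_EA.1 hP)) h1
  unfold V5helper88.F4.QA at h2
  refine Submodule.span_mono ?_ h2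
  rintro _ ⟨P, hP, Q, hQ, rfl⟩
  refine ⟨_, _, divisor_of hP.1 hP.2, divisor_of hQ.1 hQ.2, fun v => ?_⟩
  rw [V5helper88.F4.prd_apply]
  rfl

end Pool.Agent.V5helper88.Old.FourfoldClasses
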