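import Pool.Agent.V5helper88.HR.G22
import Pool.Agent.V5helper88.HR.G23

set_option autoImplicit false

/-!
# The Grothendieck period conjecture for cycles of all codimensions on products of abelian surfaces,
# and on abelian varieties with real multiplication by a field of half the dimension

Let `A` be an abelian variety of dimension `g` over the field `ℚ̄` of algebraic numbers, such that

* all endomorphisms of `A` are symmetric for the polarization, and
* the characteristic polynomial on `H_1(A, ℚ)` of some endomorphism of `A` has no complex root of
  multiplicity larger than four (`SmallBlocks`).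

This means that `A` is isogenous to a product `∏ B_i` of pairwise non-isogenous simple abelian
varieties `B_i`, such that `End(B_i) ⊗ ℚ` is a totally real field `F_i` with
`dim B_i ≤ 2 [F_i : ℚ]` (so `dim B_i = [F_i : ℚ]` or `dim B_i = 2 [F_i : ℚ]`). For example:

* products of pairwise non-isogenous abelian surfaces with `End = ℤ`, of surfaces with real
  multiplication and of elliptic curves without complex multiplication, with any number of
  factors;
* abelian varieties of dimension `2 e` with real multiplication by a totally real field of
  degree `e`.

**Theorem.** For all `k`, every element of `H^{2k}_Gr(A, ℚ(k)) = H^{2k}_dR(A / ℚ̄) ∩ H^{2k}(A, ℚ(k))` is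
a rational linear combination of products of `k` divisor classes. So `GPC ^ k (A)` is true for all
`k`.

Nothing is assumed about periods: `AbVar` is the description of an abelian variety over `ℚ̄` by theta
functions (see `Pool/Agent/Y102/AVDefs.lean`, where it is explained why every abelian variety has
it), and the theorem of Schneider and Lang is proved in this repository. Nothing is assumed about
Mumford-Tate groups. The periods of different factors could be related, in principle: if `End(B) = ℤ`
for the surface `B` then the Lie algebra `𝔥` of the group of periods may be smaller than `sp(4)` (for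
example the principal `sl(2)`), and the same simple Lie algebra could act on several factors. We
show that this does not produce new classes on `A`.

## The classes

The space `H^{2k}(A, ℚ)` is the space of the alternating forms in `2 k` variables on `H_1(A, ℚ)`, and
`H^{2k}_dR(A / ℚ̄)` is the exterior power of `H^1_dR(A / ℚ̄)`, which has the basis `A.dR i`. So
`H^{2k}_Gr(A, ℚ(k))` is the space of the rational alternating forms `φ` such that `(2 π i) ^ k φ` is a
combination of products of elements of this basis, with algebraic coefficients (`IsGr`). The variables
are indexed by `Fin k × Fin 2`. A rational alternating form in two variables which is a Hodge class is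
the class of a divisor, with rational coefficients, by the theorem of Lefschetz
(`IsDivisorClass`).

## Proof

Let `𝔥` be the complex Lie algebra generated by the rational endomorphisms of `H_1(A)` which annihilate
all de Rham-Betti classes. By the theorem of Schneider and Lang it acts semisimply on
`V = H_1(A, ℂ)` with the commutant `End(A) ⊗ ℂ`, which consists of symmetric endomorphisms. So `V` is
the orthogonal sum of pairwise non-isomorphic symplectic irreducible representations of `𝔥`, the
*blocks*, of dimension two or four. It suffices to show that an `𝔥`-invariant alternating form `φ`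
of positive degree, which is annihilated by the contractions with the symplectic forms of all
blocks, is zero. We evaluate `φ` on vectors in blocks. If three variables are in the same block of
dimension four, or two in the same block of dimension two, then the value is zero as the contraction
is zero. Let `𝔞` be a minimal ideal of `𝔥` which acts on the block `Y` of the first variable. The
main point is that `𝔞` acts on at most one block of dimension four and at most one block of
dimension two. Indeed let `x_i`, `x'_i` be dual bases of `𝔞` for the trace form, and `n = dim 𝔞`.

* The Casimir operator of `𝔞` on the traceless symmetric endomorphisms of a block `Y` of dimension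
  four is a scalar, because this space `S_0(Y)` of dimension five is irreducible. (If
  `U ⊆ S_0(Y)` is stable and neither zero nor everything then `Y` is a module over a Clifford algebra
  which is normalized by `𝔥`, and the product of the elements of an orthonormal basis of `U` or of its
  orthogonal complement would be an element of the commutant.) By crossing symmetry this gives all
  the eigenvalues of the Casimir operator on `Y ⊗ Y` in terms of `n` and of the ratio `t` of the trace
  forms of `Y` and `V`.
* If `𝔞` acts on two different blocks `Y`, `Y'` of dimension four, let `P` be the operator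
  `∑ x_i ⊗ x'_i` on `Y ⊗ Y'`. The anticommutators contribute a scalar to `P ^ 2`, because all
  `𝔥`-equivariant maps from `S_0(Y')` to `S_0(Y)` vanish. (This is the result for invariants of degree
  four in dimension eight from the file `FourfoldClasses`, applied to `Y ⊕ Y'`.) So `P` satisfies a
  quadratic equation, and as its trace is zero the multiplicities of the eigenvalues give
  `ε ^ 2 (4 n ^ 2 + 5 n + 25) = 64 (2 n - 5) ^ 2` with an integer `ε`, which is impossible.
* If `𝔞` acts on two different blocks of dimension two then in the same way `n = 3`, and `P` has an
  eigenvector which is unique up to scalars, so that it is `𝔥`-invariant. This is an isomorphism of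
  the blocks, a contradiction.

Finally `𝔞` acts on one or two of the variables of `φ` in a block of dimension four, and on at most one
variable in a block of dimension two. The eigenvalues of the Casimir operator on these two kinds of
variables are different (and not zero), so the value is zero.
-/

open Module Matrix Pool.Agent.Y102 Pool.Agent.W516.DR Pool.Agent.H204R3.GP

noncomputable section

namespace Pool.Agent.V5helper88.Old.HalfRealMult

variable {g : ℕ} (A : AbVar g)

/-- `P` is an endomorphism of `A` (up to isogeny), in terms of its action on `H_1(A, ℚ)`: it respects
the de Rham structure. (By the theorem of Bost, which is proved in `Pool.Agent.Y102.AbVar.hodge_end`,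
these are the elements of `End(A) ⊗ ℚ`.) -/
def IsEndo (P : Module.End ℚ A.H1) : Prop := IsDeRhamBettiEnd QBar A.dR P

/-- `P` is symmetric for the Riemann form of the polarization. -/
def IsSymmetric (P : Module.End ℚ A.H1) : Prop := ∀ u v, A.om (P u) v = A.om u (P v)

/-- The characteristic polynomial on `H_1(A, ℚ)` of some endomorphism has no complex root of
multiplicity larger than four. -/
def SmallBlocks : Prop := ∃ P : Module.End ℚ A.H1, IsEndo A P ∧
  ∀ z : ℂ, (P.charpoly.map (algebraMap ℚ ℂ)).rootMultiplicity z ≤ 4

/-- The endomorphism `P` generates a field of degree at least `g / 2`. -/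
def GeneratesHalf (P : Module.End ℚ A.H1) : Prop :=
  Irreducible (minpoly ℚ P) ∧ g ≤ 2 * (minpoly ℚ P).natDegree

/-- `H^{2k}(A, ℚ)`: the alternating forms in `2 k` variables in `H_1(A, ℚ)`. -/
abbrev Cohomology (k : ℕ) : Type := A.H1 [⋀^Fin k × Fin 2]→ₗ[ℚ] ℚ

/-- The bilinear forms on `H_1(A, ℚ)`. -/
abbrev Bilinear : Type := A.H1 →ₗ[ℚ] A.H1 →ₗ[ℚ] ℚ

/-- `φ` is an element of `H^{2k}_Gr(A, ℚ(k))`. -/
def IsGr {k : ℕ} (φ : Cohomology A k) : Prop :=
  IsDeRhamBettiForm QBar A.dR (2 * Real.pi * Complex.I) k φ.toMultilinearMap

/-- The alternating bilinear form `B` is a Hodge class in `H^2(A) (1)`, that is (Lefschetz), a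
rational multiple of the class of a divisor. -/
def IsDivisorClass (B : Bilinear A) : Prop :=
  IsHodgeBilinear (A.per : A.H1 →+ (Fin g → ℂ)) B ∧ ∀ u, B u u = 0

/-- The alternating form `ψ` is the product of the classes `B i` of degree two. -/
def IsProduct {k : ℕ} (B : Fin k → Bilinear A) (ψ : Cohomology A k) : Prop :=
  ∀ v, ψ v = ∑ σ : Equiv.Perm (Fin k × Fin 2), ((Equiv.Perm.sign σ : ℤ) : ℚ) *
    ∏ i, B i (v (σ (i, 0))) (v (σ (i, 1)))

/-- `φ` is a linear combination of products of divisor classes. -/
def IsSumOfProducts {k : ℕ} (φ : Cohomology A k) : Prop :=
  φ ∈ Submodule.span ℚ {ψ | ∃ B : Fin k → Bilinear A, (∀ i, IsDivisorClass A (B i)) ∧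
    IsProduct A B ψ}

variable {A}

theorem divisor_of {P : Module.End ℚ A.H1} (hP : P ∈ A.EA)
    (hs : ∀ u v, A.om (P u) v = A.om u (P v)) : IsDivisorClass A (V5helper88.HR.omP P) := by
  refine ⟨?_, fun u => ?_⟩
  · obtain ⟨P', hP'⟩ := A.endAlg.hodge P hP
    refine ⟨A.E.comp (P'.restrictScalars ℝ), fun x y => ?_, fun z hz u v => ?_⟩
    · have h1 : P' (A.per x) = A.per (P x) := hP' x
      rw [LinearMap.comp_apply, LinearMap.restrictScalars_apply]
      change A.E (P' (A.per x)) (A.per y) = _
      rw [h1, ← AbVar.om_coe, V5helper88.HR.omP_apply, hs]
    · rw [LinearMap.comp_apply, LinearMap.comp_apply, LinearMap.restrictScalars_apply,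
        LinearMap.restrictScalars_apply, P'.map_smul, A.E_unit z hz]
  · rw [V5helper88.HR.omP_apply]
    have h1 := hs u u
    rw [A.om_anti] at h1
    linarith

variable (A)

theorem sum_of_products (h : ∀ P, IsEndo A P → IsSymmetric A P) (h4 : SmallBlocks A) (k : ℕ)
    (φ : Cohomology A k) (hφ : IsGr A φ) : IsSumOfProducts A φ := by
  have h1 : φ ∈ V5helper88.HR.WA A k := fun X hX v => A.kills_of_mem hφ hX v
  obtain ⟨P, hP, hm⟩ := h4
  have hs : ∀ P ∈ A.EA, ∀ u v, A.om (P u) v = A.om u (P v) := fun P hP => h P (A.mem_EA.1 hP)
  have h2 := V5helper88.HR.main A hs (A.mem_EA.2 hP) hm k h1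
  unfold V5helper88.HR.QA at h2
  refine Submodule.span_mono ?_ h2
  rintro _ ⟨P, hP, rfl⟩
  refine ⟨_, fun i => divisor_of (hP i) (hs _ (hP i)), fun v => ?_⟩
  rw [V5helper88.HR.prd_apply]
  rfl

/-- **Theorem.** Let `A` be an abelian variety over `ℚ̄` all of whose endomorphisms are symmetric for
the polarization.

1. If the characteristic polynomial of some endomorphism has no complex root of multiplicity larger
   than four, then for all `k` every class in `H^{2k}_Gr(A, ℚ(k))` is a linear combination of products
   of divisor classes.
2. In particular this is true if some endomorphism generates a field of degree at least `g / 2`. -/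
theorem result (h : ∀ P, IsEndo A P → IsSymmetric A P) :
    (SmallBlocks A → ∀ (k : ℕ) (φ : Cohomology A k), IsGr A φ → IsSumOfProducts A φ) ∧
    ((∃ P, IsEndo A P ∧ GeneratesHalf A P) →
      ∀ (k : ℕ) (φ : Cohomology A k), IsGr A φ → IsSumOfProducts A φ) := by
  refine ⟨fun h4 k φ hφ => sum_of_products A h h4 k φ hφ, fun ⟨P, hP, hi, hg⟩ k φ hφ => ?_⟩
  refine sum_of_products A h ⟨P, hP, fun z => ?_⟩ k φ hφ
  exact V5helper88.HR.mult_le (by simp) P hi hg z

end Pool.Agent.V5helper88.Old.HalfRealMult
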